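import Pool.Agent.Lib.MP_524519_ag.DU5.Defs

/-! # Durfee in characteristic `p`, chapter AB (Cartier operator, upper bound): statements of the
modules (proofs: Paper.md in this folder) -/

set_option autoImplicit false
set_option linter.unusedSectionVars false

namespace Pool.Agent.DU5.AB

open MvPowerSeries Pool.Agent.DU5

/-! ## Part 1: two commuting derivations with dual coordinates -/

/-- Two commuting derivations with `p`-th power zero and dual coordinates `y`. -/
structure Coord (p : ℕ) {k S : Type} [Field k] [CommRing S] [Algebra k S]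
    (D : Fin 2 → Derivation k S S) (y : Fin 2 → S) : Prop where
  comm : ∀ l m a, D l (D m a) = D m (D l a)
  nil : ∀ l a, (D l)^[p] a = 0
  dual : ∀ l m, D l (y m) = if l = m then 1 else 0

/-- The composite of the `(p-1)`-st powers of the two derivations. -/
def TT (p : ℕ) {k S : Type} [Field k] [CommRing S] [Algebra k S]
    (D : Fin 2 → Derivation k S S) (s : S) : S :=
  (D 0)^[p - 1] ((D 1)^[p - 1] s)

/-- The Jacobian determinant of `X`, `Y`. -/
def Jd {k S : Type} [Field k] [CommRing S] [Algebra k S] (D : Fin 2 → Derivation k S S)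
    (X Y : S) : S :=
  D 0 X * D 1 Y - D 1 X * D 0 Y

section

variable {k S : Type} [Field k] [CommRing S] [Algebra k S]

theorem it_add (E : Derivation k S S) (n : ℕ) (a b : S) : E^[n] (a + b) = E^[n] a + E^[n] b := by
  induction n with
  | zero => rfl
  | succ n ih => rw [Function.iterate_succ_apply', Function.iterate_succ_apply',
      Function.iterate_succ_apply', ih, map_add]

theorem it_zero (E : Derivation k S S) (n : ℕ) : E^[n] (0 : S) = 0 := by
  induction n with
  | zero => rfl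
  | succ n ih => rw [Function.iterate_succ_apply', ih, map_zero]

theorem it_neg (E : Derivation k S S) (n : ℕ) (a : S) : E^[n] (-a) = - E^[n] a := by
  induction n with
  | zero => rfl
  | succ n ih => rw [Function.iterate_succ_apply', Function.iterate_succ_apply', ih, map_neg]

theorem it_const (E : Derivation k S S) (n : ℕ) {c : S} (hc : E c = 0) (a : S) :
    E^[n] (c * a) = c * E^[n] a := by
  induction n with
  | zero => rfl
  | succ n ih => rw [Function.iterate_succ_apply', Function.iterate_succ_apply', ih,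
      Derivation.leibniz, hc, smul_zero, add_zero, smul_eq_mul]

theorem der_pow_char (p : ℕ) [CharP k p] (E : Derivation k S S) (c : S) : E (c ^ p) = 0 := by
  have h : (p : S) = 0 := by
    rw [← map_natCast (algebraMap k S), CharP.cast_eq_zero, map_zero]
  rw [Derivation.leibniz_pow, nsmul_eq_mul, h, zero_mul]

theorem TT_add (p : ℕ) (D : Fin 2 → Derivation k S S) (a b : S) :
    TT p D (a + b) = TT p D a + TT p D b := by
  rw [TT, it_add, it_add]; rfl

theorem TT_zero (p : ℕ) (D : Fin 2 → Derivation k S S) : TT p D (0 : S) = 0 := by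
  rw [TT, it_zero, it_zero]

theorem TT_neg (p : ℕ) (D : Fin 2 → Derivation k S S) (a : S) : TT p D (-a) = - TT p D a := by
  rw [TT, it_neg, it_neg]; rfl

theorem TT_sum (p : ℕ) (D : Fin 2 → Derivation k S S) {ι : Type} (s : Finset ι) (a : ι → S) :
    TT p D (∑ i ∈ s, a i) = ∑ i ∈ s, TT p D (a i) := by
  classical
  induction s using Finset.induction_on with
  | empty => simp [TT_zero]
  | insert i s hi ih => rw [Finset.sum_insert hi, Finset.sum_insert hi, TT_add, ih]

theorem TT_pow (p : ℕ) [CharP k p] (D : Fin 2 → Derivation k S S) (c a : S) :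
    TT p D (c ^ p * a) = c ^ p * TT p D a := by
  rw [TT, it_const _ _ (der_pow_char p _ c), it_const _ _ (der_pow_char p _ c)]; rfl

end

/-- GEN: `S` is generated, as a ring, by the constants and the coordinates. -/
def GENStatement : Prop :=
  ∀ (p : ℕ) [Fact p.Prime] (k S : Type) [Field k] [CharP k p] [CommRing S] [Algebra k S]
    (D : Fin 2 → Derivation k S S) (y : Fin 2 → S), Coord p D y →
    ∀ P : S → Prop, (∀ c, (∀ l, D l c = 0) → P c) → (∀ m, P (y m)) →
    (∀ a b, P a → P b → P (a + b)) → (∀ a b, P a → P b → P (a * b)) → ∀ a, P a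

/-- CF: `X^(p-1) dX = ∑ (D_l X)^p y_l^(p-1) dy_l + dE`. Uses GEN. -/
def CFStatement : Prop :=
  ∀ (p : ℕ) [Fact p.Prime] (k S : Type) [Field k] [CharP k p] [CommRing S] [Algebra k S]
    (D : Fin 2 → Derivation k S S) (y : Fin 2 → S), Coord p D y →
    ∀ X : S, ∃ E : S, ∀ l, X ^ (p - 1) * D l X = (D l X) ^ p * y l ^ (p - 1) + D l E

/-- JAC: the Cartier operator on `X^a Y^b dX dY`, `a, b < p`. Uses CF. -/
def JACStatement : Prop :=
  ∀ (p : ℕ) [Fact p.Prime] (k S : Type) [Field k] [CharP k p] [CommRing S] [Algebra k S]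
    (D : Fin 2 → Derivation k S S) (y : Fin 2 → S), Coord p D y →
    ∀ (X Y : S) (a b : ℕ), a < p → b < p →
    (a = p - 1 ∧ b = p - 1 → TT p D (X ^ a * Y ^ b * Jd D X Y) = Jd D X Y ^ p) ∧
    (¬ (a = p - 1 ∧ b = p - 1) → TT p D (X ^ a * Y ^ b * Jd D X Y) = 0)

/-! ## Part 2: the derivations of `K⟦u⟧` -/

section

variable {k A : Type} [Field k] [CommRing A] [Algebra k A]

/-- `dl D` as a derivation. -/
noncomputable def dlD (D : Derivation k A A) : Derivation k (PowerSeries A) (PowerSeries A) :=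
  Derivation.mk'
    { toFun := dl D
      map_add' := fun a b => by
        ext n; simp [dl]
      map_smul' := fun c a => by
        ext n; simp [dl] }
    (fun a b => by
      ext n
      simp only [LinearMap.coe_mk, AddHom.coe_mk, dl, PowerSeries.coeff_mk, PowerSeries.coeff_mul,
        map_sum, Derivation.leibniz, smul_eq_mul, map_add, Finset.sum_add_distrib]
      congr 1
      rw [← Finset.Nat.sum_antidiagonal_swap]
      rfl)

theorem dlD_apply (D : Derivation k A A) (s : PowerSeries A) : dlD D s = dl D s := rfl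

/-- `d/du` as a `k`-derivation of `A⟦u⟧`. -/
noncomputable def du (k : Type) {A : Type} [Field k] [CommRing A] [Algebra k A] :
    Derivation k (PowerSeries A) (PowerSeries A) :=
  (PowerSeries.derivative A).restrictScalars k

theorem du_apply (s : PowerSeries A) : du k s = PowerSeries.derivative A s := rfl

/-- The two derivations of `A⟦u⟧`: `d/du` and `D` on the coefficients. -/
noncomputable def dd (D : Derivation k A A) :
    Fin 2 → Derivation k (PowerSeries A) (PowerSeries A) := ![du k, dlD D]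

theorem jm_eq (D : Derivation k A A) (x : Fin 3 → PowerSeries A) (i : Fin 3) :
    jm D x i = Jd (dd D) (x (i + 1)) (x (i + 2)) := by
  simp only [jm, Jd, dd, Matrix.cons_val_zero, Matrix.cons_val_one, du_apply, dlD_apply]
  ring

end

/-- DERS: the two derivations of `K⟦u⟧` have dual coordinates. -/
def DERSStatement : Prop :=
  ∀ (p : ℕ) [Fact p.Prime] (k K : Type) [Field k] [CharP k p] [Field K] [Algebra k K]
    (D : Derivation k K K) (t : K), (∀ a, D^[p] a = 0) → D t = 1 →
    Coord p (dd D) ![PowerSeries.X, PowerSeries.C t]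

/-- MX: series of order at least `N`. -/
def MXStatement : Prop :=
  ∀ (k : Type) [Field k] (n N : ℕ) (h : O k n),
    h ∈ Ideal.span (Set.range (X : Fin n → O k n)) ^ N ↔
      ∀ α : Fin n →₀ ℕ, α.degree < N → coeff α h = 0

/-- CHAIN: the chain rule, for every derivation of `A⟦u⟧`. Uses MX. -/
def CHAINStatement : Prop :=
  ∀ (k A : Type) [Field k] [CommRing A] [Algebra k A] (n : ℕ) (x : Fin n → PowerSeries A),
    (∀ i, PowerSeries.constantCoeff (x i) = 0) →
    ∀ (E : Derivation k (PowerSeries A) (PowerSeries A)) (h : O k n),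
    E (ev x h) = ∑ i, ev x (pderiv k i h) * E (x i)

/-- CROSS: the gradient is proportional to the minors. Uses CHAIN. -/
def CROSSStatement : Prop :=
  ∀ (k A : Type) [Field k] [CommRing A] [Algebra k A] (D : Derivation k A A)
    (x : Fin 3 → PowerSeries A), (∀ i, PowerSeries.constantCoeff (x i) = 0) →
    ∀ f : O k 3, ev x f = 0 → ∀ i j,
    ev x (pderiv k j f) * jm D x i = ev x (pderiv k i f) * jm D x j

/-! ## Part 3: the `p`-basis of `k⟦x⟧` -/

/-- The exponent of the monomial `x^a`. -/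
noncomputable def ex {p : ℕ} (a : Fin 3 → Fin p) : Fin 3 →₀ ℕ :=
  Finsupp.equivFunOnFinite.symm fun i => (a i : ℕ)

/-- The coefficient of `x^a` of `G` in the `p`-basis: `G = ∑ (pc a G)^p x^a`. -/
noncomputable def pc {k : Type} [Field k] (p : ℕ) [Fact p.Prime] [CharP k p] [PerfectRing k p]
    (a : Fin 3 → Fin p) (G : O k 3) : O k 3 :=
  fun u => (frobeniusEquiv k p).symm (coeff (p • u + ex a) G)

/-- The total degree of `a`. -/
def tot {p : ℕ} (a : Fin 3 → Fin p) : ℕ := ∑ i, (a i : ℕ)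

/-- The monomial `x^a`. -/
noncomputable def mn {k : Type} [Field k] {p : ℕ} (a : Fin 3 → Fin p) : O k 3 :=
  ∏ j, (X j : O k 3) ^ (a j : ℕ)

/-- PB: the `p`-basis. -/
def PBStatement : Prop :=
  ∀ (p : ℕ) [Fact p.Prime] (k : Type) [Field k] [CharP k p] [PerfectRing k p],
    (∀ a (G H : O k 3), pc p a (G + H) = pc p a G + pc p a H) ∧
    (∀ a (g G : O k 3), pc p a (g ^ p * G) = g * pc p a G) ∧
    (∀ G : O k 3, G = ∑ a : Fin 3 → Fin p, pc p a G ^ p * mn a) ∧
    (∀ (c : (Fin 3 → Fin p) → O k 3) (b : Fin 3 → Fin p),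
      pc p b (∑ a : Fin 3 → Fin p, c a ^ p * mn a) = c b)

/-- PX: the coefficients of `X_i G` and of `∂_j G`. Uses PB. Here `Function.update a i c` is
`a` with the value `c` at `i`. -/
def PXStatement : Prop :=
  ∀ (p : ℕ) [Fact p.Prime] (k : Type) [Field k] [CharP k p] [PerfectRing k p] (G : O k 3)
    (a : Fin 3 → Fin p) (i : Fin 3),
    (∀ b : Fin p, (b : ℕ) + 1 = a i →
      pc p a (X i * G) = pc p (Function.update a i b) G) ∧
    (∀ b : Fin p, (a i : ℕ) = 0 → (b : ℕ) + 1 = p →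
      pc p a (X i * G) = X i * pc p (Function.update a i b) G) ∧
    (∀ b : Fin p, (b : ℕ) = a i + 1 →
      pc p a (pderiv k i G) = ((a i : ℕ) + 1 : O k 3) * pc p (Function.update a i b) G) ∧
    ((a i : ℕ) + 1 = p → pc p a (pderiv k i G) = 0)

/-- PTOP: every coefficient is a top coefficient. Uses PB. -/
def PTOPStatement : Prop :=
  ∀ (p : ℕ) [Fact p.Prime] (k : Type) [Field k] [CharP k p] [PerfectRing k p] (G : O k 3)
    (a b t : Fin 3 → Fin p), (∀ i, (a i : ℕ) + b i + 1 = p) → (∀ i, (t i : ℕ) + 1 = p) →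
    pc p t (mn b * G) = pc p a G

/-- PDR: the `(p-1)`-st partial derivative. Uses PB. -/
def PDRStatement : Prop :=
  ∀ (p : ℕ) [Fact p.Prime] (k : Type) [Field k] [CharP k p] [PerfectRing k p] (G : O k 3)
    (i : Fin 3),
    (pderiv k i)^[p - 1] G = - ∑ a : Fin 3 → Fin p, if (a i : ℕ) + 1 = p then
      pc p a G ^ p * ((X (i + 1) : O k 3) ^ (a (i + 1) : ℕ) * X (i + 2) ^ (a (i + 2) : ℕ)) else 0

/-- EVF: the value of `∂_i^m (G f^m)` at a point of `f = 0`. -/
def EVFStatement : Prop :=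
  ∀ (k A : Type) [Field k] [CommRing A] [Algebra k A] (x : Fin 3 → PowerSeries A),
    (∀ i, PowerSeries.constantCoeff (x i) = 0) → ∀ (f G : O k 3) (i : Fin 3) (m : ℕ),
    ev x f = 0 → ev x ((pderiv k i)^[m] (G * f ^ m)) =
      (m.factorial : PowerSeries A) * (ev x G * ev x (pderiv k i f) ^ m)

/-! ## Part 4: the Cartier operator preserves the adjoint ideal -/

/-- KEY: the main formula. Uses JAC, DERS, PDR, EVF. -/
def KEYStatement : Prop :=
  ∀ (p : ℕ) [Fact p.Prime] (k K : Type) [Field k] [CharP k p] [PerfectRing k p] [Field K]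
    [Algebra k K] (D : Derivation k K K), Nice p D →
    ∀ x : Fin 3 → PowerSeries K, (∀ i, PowerSeries.constantCoeff (x i) = 0) →
    ∀ (f h : O k 3) (g : PowerSeries K), ev x f = 0 →
    (∀ i, g * ev x (pderiv k i f) = ev x h * jm D x i) →
    ∀ (b t : Fin 3 → Fin p) (i : Fin 3), (∀ j, (t j : ℕ) + 1 = p) →
    ev x (pc p t (mn b * (h * f ^ (p - 1)))) ^ p * jm D x i ^ p =
      ev x (pderiv k i f) ^ p * TT p (dd D) ((∏ j, x j ^ (b j : ℕ)) * g)

/-- ORD: the order after `D^(p-1)` and `d^(p-1)/du^(p-1)`. -/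
def ORDStatement : Prop :=
  ∀ (p : ℕ) [Fact p.Prime] (k K : Type) [Field k] [CharP k p] [Field K] [Algebra k K]
    (D : Derivation k K K) (n : ℕ) (y : PowerSeries K), PowerSeries.X ^ n ∣ y →
    PowerSeries.X ^ (p * (n / p)) ∣ TT p (dd D) y

/-- MPOW: an ideal of finite colength contains a power of the maximal ideal. -/
def MPOWStatement : Prop :=
  ∀ (k : Type) [Field k] (n : ℕ) (I : Ideal (O k n)), len k I ≠ ⊤ →
    ∃ N : ℕ, Ideal.span (Set.range (X : Fin n → O k n)) ^ N ≤ I

/-- NONZ: the gradient is not zero at a nonzero point. Uses MPOW. -/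
def NONZStatement : Prop :=
  ∀ (k K : Type) [Field k] [Field K] [Algebra k K] (n : ℕ) (f : O k n), len k (jac f) ≠ ⊤ →
    ∀ x : Fin n → PowerSeries K, (∀ i, PowerSeries.constantCoeff (x i) = 0) → x ≠ 0 →
    ∃ i, ev x (pderiv k i f) ≠ 0

/-- VMS: the coordinates are divisible by `X ^ vm x`. -/
def VMSStatement : Prop :=
  ∀ (K : Type) [Field K] (x : Fin 3 → PowerSeries K) (i : Fin 3), PowerSeries.X ^ vm x ∣ x i

/-- CARTIER. Uses KEY, ORD, NONZ, VMS, CROSS, PTOP. -/
def CARTIERStatement : Prop :=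
  ∀ (p : ℕ) [Fact p.Prime] (k : Type) [Field k] [CharP k p] [PerfectRing k p] (f h : O k 3),
    len k (jac f) ≠ ⊤ → h ∈ IS p f 0 → ∀ a : Fin 3 → Fin p,
    pc p a (h * f ^ (p - 1)) ∈ IS p f (3 * (p - 1) - tot a)

/-- ISJ: the partial derivatives lie in `IS p f 0`. Uses CROSS. -/
def ISJStatement : Prop :=
  ∀ (p : ℕ) [Fact p.Prime] (k : Type) [Field k] (f : O k 3), jac f ≤ IS p f 0

/-- ISP: the properties of the ideals `IS`. -/
def ISPStatement : Prop :=
  ∀ (p : ℕ) [Fact p.Prime] (k : Type) [Field k] (f : O k 3),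
    (∀ i j, i ≤ j → IS p f j ≤ IS p f i) ∧
    (∀ j i, ∀ h ∈ IS p f j, X i * h ∈ IS p f (j + p)) ∧ (∀ j, f ∈ IS p f j)

/-! ## Part 5: lengths -/

theorem len_mono {k R : Type} [Field k] [CommRing R] [Algebra k R] {I J : Ideal R} (h : I ≤ J) :
    len k J ≤ len k I := by
  unfold len
  exact Module.length_le_of_surjective (Ideal.Quotient.factorₐ k h).toLinearMap
    (Ideal.Quotient.factor_surjective h)

/-- LCOL: if `c Q ⊆ I` then `len I ≤ len (I + (c)) + len Q`. -/
def LCOLStatement : Prop :=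
  ∀ (k R : Type) [Field k] [CommRing R] [Algebra k R] (I Q : Ideal R) (c : R),
    (∀ q ∈ Q, c * q ∈ I) → len k I ≤ len k (I ⊔ Ideal.span {c}) + len k Q

/-- PWR: powers of an ideal with two generators. Uses LCOL. -/
def PWRStatement : Prop :=
  ∀ (k R : Type) [Field k] [CommRing R] [Algebra k R] (f h₁ h₂ : R) (n : ℕ),
    len k (Ideal.span {f} ⊔ Ideal.span {h₁, h₂} ^ n) ≤
      ((n + 1).choose 2 : ℕ) * len k (Ideal.span {f, h₁, h₂})

/-- LPOW: the ideal `(f, a, b^s c^t)`. Uses LCOL. -/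
def LPOWStatement : Prop :=
  ∀ (k R : Type) [Field k] [CommRing R] [Algebra k R] (f a b c : R) (s t : ℕ),
    len k (Ideal.span {f, a, b ^ s * c ^ t}) ≤
      (s : ℕ∞) * len k (Ideal.span {f, a, b}) + (t : ℕ∞) * len k (Ideal.span {f, a, c})

/-- AUB: the bound for `(f) + (M J)^n I₀`. Uses LCOL, PWR, LPOW. -/
def AUBStatement : Prop :=
  ∀ (k R : Type) [Field k] [CommRing R] [Algebra k R] (f a a' b b₁ b₂ : R) (M J I₀ : Ideal R)
    (n : ℕ), J ≤ I₀ → a ∈ M → a' ∈ M → b ∈ J → b₁ ∈ J → b₂ ∈ J →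
    len k (Ideal.span {f} ⊔ (M * J) ^ n * I₀) ≤
      ((n + 1).choose 2 : ℕ) * (len k (Ideal.span {f, a, a'}) +
        2 * len k (Ideal.span {f, a, b})) +
      ((n + 2).choose 2 : ℕ) * len k (Ideal.span {f, b₁, b₂})

/-- AFIL: the `f`-adic filtration of `R ⧸ A`. Uses LCOL. -/
def AFILStatement : Prop :=
  ∀ (k R : Type) [Field k] [CommRing R] [Algebra k R] (p : ℕ) (A : Ideal R) (f : R)
    (Q : ℕ → Ideal R), f ^ p ∈ A →
    (∀ j < p, ∀ q ∈ Q j, ∃ r, f ^ j * q + f ^ (j + 1) * r ∈ A) →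
    len k A ≤ ∑ j ∈ Finset.range p, len k (Ideal.span {f} ⊔ Q j)

/-- AMJ: an ideal stable under derivations `θ` which contains `f^(p-1) I₀`. -/
def AMJStatement : Prop :=
  ∀ (p : ℕ) [Fact p.Prime] (k R ι : Type) [Field k] [CharP k p] [CommRing R] [Algebra k R]
    (θ : ι → Derivation k R R) (A I₀ : Ideal R) (f : R),
    (∀ i, ∀ G ∈ A, θ i G ∈ A) → (∀ h ∈ I₀, f ^ (p - 1) * h ∈ A) →
    ∀ n < p, ∀ g ∈ Ideal.span (Set.range fun i => θ i f) ^ n * I₀,
    ∃ r, f ^ (p - 1 - n) * g + f ^ (p - n) * r ∈ A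

/-- FEXT: extension of the ground field. Uses MX. -/
def FEXTStatement : Prop :=
  ∀ (k F : Type) [Field k] [Field F] [Algebra k F] (n N : ℕ) (I : Ideal (O k n)),
    Ideal.span (Set.range (X : Fin n → O k n)) ^ N ≤ I →
    len k I ≤ len F (I.map (MvPowerSeries.map (algebraMap k F)))

/-! ## Part 6: the ideal `A` -/

/-- AID: the series whose `p`-basis coefficients lie in the ideals `J a` form an ideal.
Uses PB, PX. -/
def AIDStatement : Prop :=
  ∀ (p : ℕ) [Fact p.Prime] (k : Type) [Field k] [CharP k p] [PerfectRing k p]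
    (J : (Fin 3 → Fin p) → Ideal (O k 3)),
    (∀ a i, ∀ b : Fin p, (b : ℕ) + 1 = a i → J (Function.update a i b) ≤ J a) →
    (∀ a i, ∀ b : Fin p, (a i : ℕ) = 0 → (b : ℕ) + 1 = p →
      ∀ h ∈ J (Function.update a i b), X i * h ∈ J a) →
    ∃ A : Ideal (O k 3), ∀ G, G ∈ A ↔ ∀ a, pc p a G ∈ J a

/-- AST: stability of `A` under `X_i ∂_j`. Uses PX. -/
def ASTStatement : Prop :=
  ∀ (p : ℕ) [Fact p.Prime] (k : Type) [Field k] [CharP k p] [PerfectRing k p]
    (I : ℕ → Ideal (O k 3)), (∀ j i, ∀ h ∈ I j, X i * h ∈ I (j + p)) →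
    ∀ G : O k 3, (∀ a, pc p a G ∈ I (3 * (p - 1) - tot a)) → ∀ i j a,
    pc p a (X i * pderiv k j G) ∈ I (3 * (p - 1) - tot a)

/-- ALEN: the colength of `A`. Uses PB. -/
def ALENStatement : Prop :=
  ∀ (p : ℕ) [Fact p.Prime] (k : Type) [Field k] [CharP k p] [PerfectRing k p]
    (J : (Fin 3 → Fin p) → Ideal (O k 3)) (A : Ideal (O k 3)),
    (∀ G, G ∈ A ↔ ∀ a, pc p a G ∈ J a) → len k A = ∑ a, len k (J a)

/-- CORE. Uses CARTIER, ISP, AID, AST, ALEN, AMJ, AFIL, PB. -/
def COREStatement : Prop :=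
  ∀ (p : ℕ) [Fact p.Prime] (k : Type) [Field k] [CharP k p] [PerfectRing k p] (f : O k 3),
    len k (jac f) ≠ ⊤ →
    ∑ a : Fin 3 → Fin p, len k (IS p f (tot a)) ≤ ∑ n ∈ Finset.range p,
      len k (Ideal.span {f} ⊔ (Ideal.span (Set.range (X : Fin 3 → O k 3)) * jac f) ^ n * IS p f 0)

/-- UP. Uses CORE, AUB, FEXT, MPOW, ISJ. -/
def UPStatement : Prop :=
  ∀ (p : ℕ) [Fact p.Prime] (k F : Type) [Field k] [CharP k p] [PerfectRing k p] [Field F]
    [Algebra k F] (f : O k 3), len k (jac f) ≠ ⊤ →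
    ∀ a ∈ Ideal.span (Set.range (X : Fin 3 → O F 3)),
    ∀ a' ∈ Ideal.span (Set.range (X : Fin 3 → O F 3)),
    ∀ b ∈ (jac f).map (MvPowerSeries.map (algebraMap k F)),
    ∀ b₁ ∈ (jac f).map (MvPowerSeries.map (algebraMap k F)),
    ∀ b₂ ∈ (jac f).map (MvPowerSeries.map (algebraMap k F)),
    ∑ v : Fin 3 → Fin p, len k (IS p f (tot v)) ≤
      ((p + 1).choose 3 : ℕ) *
        (len F (Ideal.span {MvPowerSeries.map (algebraMap k F) f, a, a'}) +
          2 * len F (Ideal.span {MvPowerSeries.map (algebraMap k F) f, a, b})) +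
      ((p + 2).choose 3 : ℕ) *
        len F (Ideal.span {MvPowerSeries.map (algebraMap k F) f, b₁, b₂})

end Pool.Agent.DU5.AB
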